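import Pool.Agent.Helper97.TI.Defs
/-!
Module CHI of MP_17e24e_ag: the bivariate minimal polynomial identity.
-/
set_option autoImplicit false
open MvPolynomial

namespace TI

section CHI

variable {K : Type} [Field K] [Algebra ℂ K]

/-- chain rule for polynomial expressions -/
theorem CHI_chain {σ : Type} [Fintype σ] (D : Derivation ℂ K K) (v : σ → K)
    (p : MvPolynomial σ ℂ) :
    D (MvPolynomial.aeval v p) = ∑ o, MvPolynomial.aeval v (pderiv o p) * D (v o) := by
  classical
  induction p using MvPolynomial.induction_on with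
  | C a => simp
  | add p q hp hq =>
    simp only [map_add, hp, hq, add_mul, Finset.sum_add_distrib]
  | mul_X p j hp =>
    rw [map_mul, aeval_X, Derivation.leibniz, hp]
    simp only [Derivation.leibniz, map_add, smul_eq_mul, map_mul, aeval_X, pderiv_X, add_mul,
      Finset.sum_add_distrib, Finset.mul_sum]
    congr 1
    · rw [Finset.sum_eq_single j]
      · simp
      · intro b _ hb
        rw [Pi.single_eq_of_ne (Ne.symm hb)]
        simp
      · intro h
        exact absurd (Finset.mem_univ j) h
    · refine Finset.sum_congr rfl fun o _ => ?_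
      ring

/-- the valuation vector -/
def CHI_v {n : ℕ} (c : Fin n → K) (t : K) : Option (Fin n) → K :=
  fun o => o.elim t c

open scoped IntermediateField.algebraAdjoinAdjoin in
theorem CHI_lift {n : ℕ} (c : Fin n → K) (hc : AlgebraicIndependent ℂ c) (t : K)
    (ht : IsIntegral (Algebra.adjoin ℂ (Set.range c)) t) :
    ∃ P : MvPolynomial (Option (Fin n)) ℂ, P ≠ 0 ∧
      (∀ p : MvPolynomial (Option (Fin n)) ℂ, MvPolynomial.aeval (CHI_v c t) p = 0 ↔ P ∣ p) ∧
      MvPolynomial.aeval (CHI_v c t) (pderiv none P) =
        Polynomial.aeval t (Polynomial.derivative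
          (minpoly (IntermediateField.adjoin ℂ (Set.range c)) t)) := by
  classical
  have hic : IsIntegrallyClosed (Algebra.adjoin ℂ (Set.range c)) :=
    IsIntegrallyClosed.of_equiv hc.aevalEquiv.toRingEquiv
  set R := Algebra.adjoin ℂ (Set.range c) with hR
  set L := IntermediateField.adjoin ℂ (Set.range c) with hL
  have hmin : minpoly L t = (minpoly R t).map (algebraMap R L) :=
    minpoly.isIntegrallyClosed_eq_field_fractions' L ht
  -- the ring isomorphism
  let e : MvPolynomial (Option (Fin n)) ℂ ≃+* Polynomial R :=
    (optionEquivLeft ℂ (Fin n)).toRingEquiv.trans (Polynomial.mapEquiv hc.aevalEquiv.toRingEquiv)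
  have heC : ∀ a : ℂ, e (MvPolynomial.C a) = Polynomial.C (algebraMap ℂ R a) := by
    intro a
    have h1 : hc.aevalEquiv (MvPolynomial.C a) = algebraMap ℂ R a := by
      rw [← MvPolynomial.algebraMap_eq]
      exact hc.aevalEquiv.commutes a
    simp only [e, RingEquiv.trans_apply, Polynomial.mapEquiv_apply]
    change Polynomial.map _ (optionEquivLeft ℂ (Fin n) (MvPolynomial.C a)) = _
    rw [optionEquivLeft_C, Polynomial.map_C]
    exact congrArg _ h1
  have heN : e (MvPolynomial.X none) = Polynomial.X := by
    simp only [e, RingEquiv.trans_apply, Polynomial.mapEquiv_apply]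
    change Polynomial.map _ (optionEquivLeft ℂ (Fin n) (MvPolynomial.X none)) = _
    rw [optionEquivLeft_X_none, Polynomial.map_X]
  have heS : ∀ j, e (MvPolynomial.X (some j)) = Polynomial.C (hc.aevalEquiv (MvPolynomial.X j)) := by
    intro j
    simp only [e, RingEquiv.trans_apply, Polynomial.mapEquiv_apply]
    change Polynomial.map _ (optionEquivLeft ℂ (Fin n) (MvPolynomial.X (some j))) = _
    rw [optionEquivLeft_X_some, Polynomial.map_C]
    rfl
  have he : ∀ p, MvPolynomial.aeval (CHI_v c t) p = Polynomial.aeval t (e p) := by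
    intro p
    induction p using MvPolynomial.induction_on with
    | C a =>
      rw [heC, Polynomial.aeval_C, ← MvPolynomial.algebraMap_eq, AlgHom.commutes]
      rfl
    | add p q hp hq => rw [map_add, map_add, map_add, hp, hq]
    | mul_X p j hp =>
      rw [map_mul, map_mul, map_mul, hp, aeval_X]
      congr 1
      cases j with
      | none => rw [heN, Polynomial.aeval_X]; rfl
      | some j =>
        rw [heS, Polynomial.aeval_C]
        have := hc.algebraMap_aevalEquiv (MvPolynomial.X j)
        rw [aeval_X] at this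
        exact this.symm
  have hd : ∀ p, e (pderiv none p) = Polynomial.derivative (e p) := by
    intro p
    induction p using MvPolynomial.induction_on with
    | C a =>
      rw [heC, Polynomial.derivative_C, pderiv_C, map_zero]
    | add p q hp hq => simp only [map_add, hp, hq]
    | mul_X p j hp =>
      have h1 : e (p * MvPolynomial.X j) = e p * e (MvPolynomial.X j) := map_mul e _ _
      rw [h1, Polynomial.derivative_mul, ← hp, Derivation.leibniz, map_add, smul_eq_mul,
        smul_eq_mul, map_mul e, map_mul e]
      cases j with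
      | none =>
        rw [heN, pderiv_X_self, map_one, Polynomial.derivative_X]
        ring
      | some j =>
        rw [heS, pderiv_X_of_ne (by simp), map_zero, Polynomial.derivative_C]
        ring
  have hm0 : minpoly R t ≠ 0 := minpoly.ne_zero ht
  refine ⟨e.symm (minpoly R t), ?_, ?_, ?_⟩
  · intro h0
    apply hm0
    rw [← e.apply_symm_apply (minpoly R t), h0, map_zero]
  · intro p
    rw [he, minpoly.isIntegrallyClosed_dvd_iff ht]
    constructor
    · rintro ⟨q, hq⟩
      refine ⟨e.symm q, ?_⟩
      apply e.injective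
      rw [map_mul, e.apply_symm_apply, e.apply_symm_apply, hq]
    · rintro ⟨q, hq⟩
      refine ⟨e q, ?_⟩
      rw [hq, map_mul, e.apply_symm_apply]
  · rw [he, hd, e.apply_symm_apply, hmin, Polynomial.derivative_map,
      Polynomial.aeval_map_algebraMap]

/-- CHI: the key identity `P'(t) dc' = - u Q'(s) dc` -/
theorem chi {n : ℕ} (der : Fin n → Derivation ℂ K K) (c c' : Fin n → K) (i : Fin n)
    (hcc : ∀ j, j ≠ i → c j = c' j)
    (hc : AlgebraicIndependent ℂ c) (hc' : AlgebraicIndependent ℂ c')
    (ht : IsIntegral (Algebra.adjoin ℂ (Set.range c)) (c' i))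
    (hs : IsIntegral (Algebra.adjoin ℂ (Set.range c')) (c i)) :
    ∃ u : ℂ, u ≠ 0 ∧
      Polynomial.aeval (c' i) (Polynomial.derivative
        (minpoly (IntermediateField.adjoin ℂ (Set.range c)) (c' i))) * Dl der c' =
      u • (Polynomial.aeval (c i) (Polynomial.derivative
        (minpoly (IntermediateField.adjoin ℂ (Set.range c')) (c i))) * Dl der c) := by
  classical
  obtain ⟨P, hP0, hPk, hPd⟩ := CHI_lift c hc (c' i) ht
  obtain ⟨Q, hQ0, hQk, hQd⟩ := CHI_lift c' hc' (c i) hs
  set τ : Equiv.Perm (Option (Fin n)) := Equiv.swap none (some i) with hτ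
  have hv : CHI_v c' (c i) = CHI_v c (c' i) ∘ τ := by
    funext o
    rcases o with _ | j
    · simp [CHI_v, hτ]
    · by_cases hj : j = i
      · subst hj; simp [CHI_v, hτ]
      · have h1 : τ (some j) = some j := by
          rw [hτ]
          exact Equiv.swap_apply_of_ne_of_ne (by simp) (by simpa using hj)
        simp only [Function.comp_apply, h1, CHI_v, Option.elim]
        exact (hcc j hj).symm
  have hren : ∀ p : MvPolynomial (Option (Fin n)) ℂ, MvPolynomial.aeval (CHI_v c' (c i)) p =
      MvPolynomial.aeval (CHI_v c (c' i)) (rename (R := ℂ) τ p) := by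
    intro p
    rw [aeval_rename, hv]
  have hττ : ∀ p : MvPolynomial (Option (Fin n)) ℂ, rename τ (rename τ p) = p := by
    intro p
    rw [rename_rename]
    have : (τ ∘ τ : Option (Fin n) → Option (Fin n)) = id := by
      funext o
      simp [hτ]
    rw [this, rename_id_apply]
  have h1 : P ∣ rename τ Q := by
    rw [← hPk, ← hren, hQk]
  have h2 : rename τ Q ∣ P := by
    have : Q ∣ rename τ P := by
      rw [← hQk, hren, hττ, hPk]
    obtain ⟨q, hq⟩ := this
    refine ⟨rename τ q, ?_⟩
    rw [← map_mul, ← hq, hττ]
  obtain ⟨w, hw⟩ := associated_of_dvd_dvd h2 h1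
  obtain ⟨u, hu⟩ : ∃ u : ℂ, (w : MvPolynomial (Option (Fin n)) ℂ) = MvPolynomial.C u := by
    obtain ⟨u, _, hu⟩ := MvPolynomial.isUnit_iff_eq_C_of_isReduced.mp w.isUnit
    exact ⟨u, hu⟩
  have hu0 : u ≠ 0 := by
    rintro rfl
    rw [map_zero] at hu
    exact w.ne_zero hu
  rw [hu, mul_comm, ← MvPolynomial.smul_eq_C_mul] at hw
  -- the partial derivatives
  have hdN : MvPolynomial.aeval (CHI_v c (c' i)) (pderiv (some i) P) =
      u • Polynomial.aeval (c i) (Polynomial.derivative
        (minpoly (IntermediateField.adjoin ℂ (Set.range c')) (c i))) := by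
    rw [← hw, Derivation.map_smul, map_smul, ← hQd, hren]
    congr 2
    have : (some i : Option (Fin n)) = τ none := by simp [hτ]
    rw [this, pderiv_rename τ.injective]
  set A : Matrix (Fin n) (Fin n) K := Matrix.of fun k j => der k (c' j) with hA
  set coef : Fin n → K := fun j => if j = i then
    MvPolynomial.aeval (CHI_v c (c' i)) (pderiv none P) else
    MvPolynomial.aeval (CHI_v c (c' i)) (pderiv (some j) P) with hcoef
  have hcol : ∀ k, ∑ j, coef j • A k j =
      -(u • Polynomial.aeval (c i) (Polynomial.derivative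
        (minpoly (IntermediateField.adjoin ℂ (Set.range c')) (c i)))) * der k (c i) := by
    intro k
    have h0 : MvPolynomial.aeval (CHI_v c (c' i)) P = 0 := (hPk P).mpr dvd_rfl
    have h3 := CHI_chain (der k) (CHI_v c (c' i)) P
    rw [h0, map_zero, Fintype.sum_option] at h3
    rw [← Finset.add_sum_erase _ _ (Finset.mem_univ i)] at h3 ⊢
    rw [hdN] at h3
    have h4 : ∑ x ∈ Finset.univ.erase i, MvPolynomial.aeval (CHI_v c (c' i)) (pderiv (some x) P) *
        der k (CHI_v c (c' i) (some x)) = ∑ x ∈ Finset.univ.erase i, coef x • A k x := by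
      refine Finset.sum_congr rfl fun x hx => ?_
      have hxi : x ≠ i := Finset.ne_of_mem_erase hx
      simp only [hcoef, if_neg hxi, hA, Matrix.of_apply, smul_eq_mul, CHI_v, Option.elim]
      rw [hcc x hxi]
    rw [h4] at h3
    have h5 : coef i • A k i = MvPolynomial.aeval (CHI_v c (c' i)) (pderiv none P) *
        der k (CHI_v c (c' i) none) := by
      simp only [hcoef, if_true, hA, Matrix.of_apply, smul_eq_mul, CHI_v, Option.elim]
    rw [h5]
    have h6 : der k (CHI_v c (c' i) (some i)) = der k (c i) := rfl
    rw [h6] at h3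
    linear_combination -h3
  have hdet := Matrix.det_updateCol_sum A i coef
  have h7 : A.updateCol i (fun k => ∑ j, coef j • A k j) =
      A.updateCol i ((-(u • Polynomial.aeval (c i) (Polynomial.derivative
        (minpoly (IntermediateField.adjoin ℂ (Set.range c')) (c i))))) •
        (fun k => der k (c i))) := by
    congr 1
    funext k
    rw [hcol]
    rfl
  rw [h7, Matrix.det_updateCol_smul] at hdet
  have h8 : A.updateCol i (fun k => der k (c i)) = Matrix.of fun k j => der k (c j) := by
    ext k j
    by_cases hj : j = i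
    · subst hj; simp
    · rw [Matrix.updateCol_ne hj]
      simp only [hA, Matrix.of_apply]
      rw [hcc j hj]
  rw [h8] at hdet
  refine ⟨-u, neg_ne_zero.mpr hu0, ?_⟩
  rw [← hPd]
  have h9 : coef i = MvPolynomial.aeval (CHI_v c (c' i)) (pderiv none P) := by
    simp [hcoef]
  rw [← h9]
  change coef i * A.det = -u • (_ * Matrix.det (Matrix.of fun k j => der k (c j)))
  rw [smul_eq_mul] at hdet
  rw [← hdet]
  simp only [Algebra.smul_def, map_neg]
  ring

end CHI

end TI
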